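import Pool.Agent.Helper808_Hyp.Loc4

/-!
# A finest matroid subdivision of `Δ(3, 9)` with a decomposable maximal cell

The hypersimplex `Δ(3, 9)` has a finest matroid subdivision, one of whose maximal cells is the
polytope of a matroid that has a nontrivial matroid subdivision. So the maximal cells of finest
matroid subdivisions of hypersimplices need not be polytopes of indecomposable matroids.

The cell is `{x ∈ Δ(3, 9) | x 0 + x 1 + x 2 + x 3 ≥ 2, x 0 + x 1 + x 2 ≤ 2}`. It is cut by the
hyperplane `x 0 + x 1 = 1`, but this cut does not extend to a matroid subdivision of the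
neighbouring cells: these would have to cut all the octahedra `{e_p + e_i + e_j | i, j ∈ 0123}` and
`{e_p + e_i + e_j | i, j ∈ 0456}` with `p = 7, 8`, and the perspectivities with centres `7` and `8`
carry each of the three cuts of such an octahedron to a different one.

The definitions are in `Pool/Agent/Helper808_Hyp/Defs.lean`.
-/

set_option autoImplicit false

namespace Pool.Agent.Results.MP_6a4d09_co.DecomposableCell

open Pool.Agent.Helper808_Hyp

theorem result : ∃ 𝒞 : Set (Set (Fin 9 → ℝ)), IsFinest (hypersimplex 3 9) 𝒞 ∧
    ∃ N : Matroid (Fin 9), N.E = Set.univ ∧ polytope N ∈ 𝒞 ∧ ¬ Indecomposable N :=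
  main

end Pool.Agent.Results.MP_6a4d09_co.DecomposableCell
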